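import Pool.Agent.H673R3.UC.Z1

/-!
# Relative to a random oracle no disjoint `NP` pair is hard for `UP ∩ coUP`

The proof of `Pool.Agent.H673R3.UC.main_N` (helpers 583 and 673 of earlier rounds) works for
disjoint pairs.
-/

set_option autoImplicit false

namespace Pool.Agent.TH654.PR

open MeasureTheory Pool.Agent.NPC Pool.Agent.H628R3.RO Pool.Agent.H673R3.UC Pool.Agent.H673R3

theorem main_pair : ∀ᵐ A ∂randomOracle, ∀ K₀ K₁ : Set (List Bool), IsPair (IsNP A) K₀ K₁ →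
    ∃ L : Set (List Bool), IsUP A L ∧ IsUP A Lᶜ ∧ ¬ RedPair A L Lᶜ K₀ K₁ := by
  have := countable_poly2
  choose b hc hcore using fun q : (Bool → Alg) × (Bool → Polynomial ℕ) => Z1_ae q.1 q.2
  have hall : ∀ᵐ A ∂randomOracle, ∀ q : (Bool → Alg) × (Bool → Polynomial ℕ),
      (∀ n s, A ∉ Bad n s ∩ ErrN q.1 q.2 n) → ∃ (t : ℕ) (L : List (List Bool)),
      (∃ i0, ∀ i ≥ i0, A ∉ Inv (Tt (b q) t i)
        (lev Bad (fun n _ => ErrN q.1 q.2 n) t L (Tt (b q) t) i)) ∧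
      ∀ (r : Alg) (i0 : ℕ), ∃ i ≥ i0, A ∉ UC.GoodN q.1 q.2 r (Tt (b q) t i)
        (lev Bad (fun n _ => ErrN q.1 q.2 n) t L (Tt (b q) t) i) := ae_all_iff.2 hcore
  filter_upwards [hall] with A hA K₀ K₁ hK
  obtain ⟨hK0, hK1, hdis⟩ := hK
  obtain ⟨V0, p0, ⟨M0, hM0⟩, hV0⟩ := hK0
  obtain ⟨V1, p1, ⟨M1, hM1⟩, hV1⟩ := hK1
  set V : Bool → Alg := fun i => bif i then M1 else M0 with hV
  set p : Bool → Polynomial ℕ := fun i => bif i then p1 else p0 with hp
  have hw0 : ∀ x, Wit (V false) (p false) x A ↔ x ∈ K₀ := by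
    intro x
    rw [hV0 x, Wit]
    refine exists_congr fun y => and_congr_right fun _ => ?_
    change M0.out A (pairBits x y) = some [true] ↔ _
    rw [hM0, Option.some.injEq]
  have hw1 : ∀ x, Wit (V true) (p true) x A ↔ x ∈ K₁ := by
    intro x
    rw [hV1 x, Wit]
    refine exists_congr fun y => and_congr_right fun _ => ?_
    change M1.out A (pairBits x y) = some [true] ↔ _
    rw [hM1, Option.some.injEq]
  obtain ⟨t, S, ⟨i1, h1⟩, h2⟩ := hA (V, p) (by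
    rintro n s ⟨_, x, _, h4⟩
    exact hdis x ⟨(hw0 x).1 (h4 false), (hw1 x).1 (h4 true)⟩)
  set f := schK Bad (fun n _ => ErrN V p n) (b (V, p)) t S (Tt (b (V, p)) t i1) with hf
  have hfn : ∀ n s, f n = some s → s ≤ n := fun n s h => schK_le h
  have hfA : ∀ n s, f n = some s → A ∉ Inv n s := by
    intro n s h
    obtain ⟨h3, i, rfl, rfl⟩ := eq_of_schK h
    exact h1 i ((strictMono_Tt (b (V, p)) t).le_iff_le.1 h3)
  have hpf : Poly (fun x : List Unit => f x.length) :=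
    Pool.Agent.H583R2.NC.p_schK' (hc (V, p)) t S _
  refine ⟨_, isUP_LL A f hpf hfn hfA, isUP_LLc A f hpf hfn hfA, ?_⟩
  rintro ⟨F, ⟨r, hr⟩, hF0, hF1⟩
  obtain ⟨i, hi, h3⟩ := h2 r i1
  set n := Tt (b (V, p)) t i with hn
  set s := lev Bad (fun n _ => ErrN V p n) t S (Tt (b (V, p)) t) i with hs
  have hfi : f n = some s := schK_Tt ((strictMono_Tt (b (V, p)) t).monotone hi)
  refine h3 fun bb hbb j hj ho => ⟨_, hr _, ?_, ?_⟩
  · intro h
    rw [hw0]
    exact hF0 _ ((Z1_mem_LL_inst hfi hbb hj ho).2 h)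
  · intro h
    rw [hw1]
    refine hF1 _ fun h4 => ?_
    exact (Z1_mem_LL_inst hfi hbb hj ho).1 h4 h

end Pool.Agent.TH654.PR
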